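import Pool.Agent.helper23.BN.Basic

set_option autoImplicit false

/-!
# MP_94a57f_an, module A11: axially symmetric functions and the subspace `XS`
-/

open MeasureTheory Filter Topology Set Metric
open scoped ContDiff Gradient RealInnerProductSpace ENNReal

noncomputable section
namespace Pool.Agent.helper13.BN
variable {N : ℕ}

theorem axial_ae {e : E N} {h h' : E N → ℝ} (hh : Axial e h) (hae : h =ᵐ[volume] h') :
    Axial e h' := by
  obtain ⟨k, hk, hx⟩ := hh
  refine ⟨k, hk, ?_⟩
  filter_upwards [hx, hae] with x h1 h2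
  rw [← h2, h1]

theorem axial_comp {e : E N} {h h' : E N → ℝ} (hh : Axial e h) (hh' : Axial e h')
    {k : ℝ × ℝ → ℝ} (hk : Measurable k) : Axial e (fun x => k (h x, h' x)) := by
  obtain ⟨k1, hk1, hx1⟩ := hh
  obtain ⟨k2, hk2, hx2⟩ := hh'
  refine ⟨fun p => k (k1 p, k2 p), hk.comp (hk1.prodMk hk2), ?_⟩
  filter_upwards [hx1, hx2] with x h1 h2
  simp only [h1, h2]

theorem axial_meas_map (e : E N) : Measurable (fun x : E N => ((‖x‖, ⟪x, e⟫) : ℝ × ℝ)) := by
  have h1 : Continuous (fun x : E N => ((‖x‖, ⟪x, e⟫) : ℝ × ℝ)) := by fun_prop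
  exact h1.measurable

theorem axial_aesm {e : E N} {h : E N → ℝ} (hh : Axial e h) : AEStronglyMeasurable h volume := by
  obtain ⟨k, hk, hx⟩ := hh
  exact ((hk.comp (axial_meas_map e)).aestronglyMeasurable).congr (hx.mono fun x hx => hx.symm)

/-- closedness under a.e. limits -/
theorem axial_lim_ae {e : E N} {h : ℕ → E N → ℝ} {h' : E N → ℝ}
    (hh : ∀ n, Axial e (h n)) (hlim : ∀ᵐ x, Tendsto (fun n => h n x) atTop (𝓝 (h' x))) :
    Axial e h' := by
  choose k hk hx using hh
  refine ⟨fun p => limsup (fun n => k n p) atTop, Measurable.limsup hk, ?_⟩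
  filter_upwards [hlim, ae_all_iff.2 hx] with x h1 h2
  have h3 : (fun n => h n x) = fun n => k n (‖x‖, ⟪x, e⟫) := funext fun n => h2 n
  rw [h3] at h1
  exact h1.limsup_eq.symm

/-- closedness under limits in `L^q` -/
theorem axial_lim {e : E N} {q : ℝ} (hq : 0 < q) {h : ℕ → E N → ℝ} {h' : E N → ℝ}
    (hh : ∀ n, Axial e (h n)) (hm : AEStronglyMeasurable h' volume)
    (hlim : Tendsto (fun n => eLpNorm (fun x => h n x - h' x) (ENNReal.ofReal q) volume)
      atTop (𝓝 0)) : Axial e h' := by
  have h1 : TendstoInMeasure volume h atTop h' :=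
    tendstoInMeasure_of_tendsto_eLpNorm (by simpa using hq) (fun n => axial_aesm (hh n)) hm hlim
  obtain ⟨ns, _, h2⟩ := h1.exists_seq_tendsto_ae
  exact axial_lim_ae (fun n => hh (ns n)) h2

theorem axial_const (e : E N) (c : ℝ) : Axial e (fun _ => c) :=
  ⟨fun _ => c, measurable_const, Eventually.of_forall fun _ => rfl⟩

theorem axial_add {e : E N} {h h' : E N → ℝ} (hh : Axial e h) (hh' : Axial e h') :
    Axial e (fun x => h x + h' x) :=
  axial_comp hh hh' (k := fun p => p.1 + p.2) (measurable_fst.add measurable_snd)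

theorem axial_smul {e : E N} {h : E N → ℝ} (hh : Axial e h) (c : ℝ) :
    Axial e (fun x => c * h x) :=
  axial_comp hh hh (k := fun p => c * p.1) (measurable_fst.const_mul c)

/-- convergence of the functions in `L^{2*}`, with `eLpNorm` -/
theorem fn_tendsto_eLpNorm (hN : 3 ≤ N) {w : ℕ → LV N} {v : LV N} (hw : ∀ n, w n ∈ DD univ)
    (h : Tendsto w atTop (𝓝 v)) :
    Tendsto (fun n => eLpNorm (fun x => fn (w n) x - fn v x) (ENNReal.ofReal (ts N)) volume)
      atTop (𝓝 0) := by
  have hv : v ∈ DD (univ : Set (E N)) :=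
    (DD_isClosed univ).mem_of_tendsto h (Eventually.of_forall hw)
  have h1 : ∀ n, eLpNorm (fun x => fn (w n) x - fn v x) (ENNReal.ofReal (ts N)) volume ≤
      ENNReal.ofReal (SS N * ‖w n - v‖) := by
    intro n
    have h2 := sobolev hN (Submodule.sub_mem _ (hw n) hv)
    have h3 : eLpNorm (fun x => fn (w n) x - fn v x) (ENNReal.ofReal (ts N)) volume =
        eLpNorm (fn (w n - v)) (ENNReal.ofReal (ts N)) volume :=
      eLpNorm_congr_ae (fn_sub hN (hw n) hv).symm
    rw [h3]
    have h4 := h2.2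
    rw [nq, Measure.restrict_univ] at h4
    have h5 : MemLp (fn (w n - v)) (ENNReal.ofReal (ts N)) volume := by
      have := h2.1
      unfold Mq at this
      rwa [Measure.restrict_univ] at this
    rw [← ENNReal.ofReal_toReal h5.eLpNorm_ne_top]
    exact ENNReal.ofReal_le_ofReal h4
  have h6 : Tendsto (fun n => ENNReal.ofReal (SS N * ‖w n - v‖)) atTop (𝓝 0) := by
    have h7 : Tendsto (fun n => SS N * ‖w n - v‖) atTop (𝓝 (SS N * 0)) :=
      (tendsto_iff_norm_sub_tendsto_zero.1 h).const_mul _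
    rw [mul_zero] at h7
    have := ENNReal.tendsto_ofReal h7
    simpa using this
  exact tendsto_of_tendsto_of_tendsto_of_le_of_le tendsto_const_nhds h6
    (fun _ => zero_le) h1

theorem ax_ts_pos (hN : 3 ≤ N) : 0 < ts N := by
  have := ts_gt hN
  linarith

/-- `XX` as a submodule -/
def XXs (hN : 3 ≤ N) (e : E N) (ρ : ℝ) : Submodule ℝ (LV N) where
  carrier := XX e ρ
  zero_mem' := ⟨Submodule.zero_mem _, axial_ae (axial_const e 0) (fn_zero hN).symm⟩
  add_mem' := by
    rintro a b ⟨ha, ha'⟩ ⟨hb, hb'⟩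
    exact ⟨Submodule.add_mem _ ha hb, axial_ae (axial_add ha' hb')
      (fn_add hN (DD_mono (subset_univ _) ha) (DD_mono (subset_univ _) hb)).symm⟩
  smul_mem' := by
    rintro c a ⟨ha, ha'⟩
    exact ⟨Submodule.smul_mem _ _ ha, axial_ae (axial_smul ha' c)
      (fn_smul hN c (DD_mono (subset_univ _) ha)).symm⟩

theorem mem_XS (hN : 3 ≤ N) {e : E N} {ρ : ℝ} {w : LV N} :
    w ∈ XS e ρ ↔ w ∈ DD (ann N ρ) ∧ Axial e (fn w) := by
  have hspan : Submodule.span ℝ (XX e ρ) = XXs hN e ρ := by
    apply le_antisymm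
    · exact Submodule.span_le.2 (fun x hx => hx)
    · intro x hx
      exact Submodule.subset_span hx
  constructor
  · intro hw
    rw [XS, hspan] at hw
    have hw' : w ∈ closure (XX e ρ : Set (LV N)) := by
      have := hw
      rw [← SetLike.mem_coe, Submodule.topologicalClosure_coe] at this
      exact this
    obtain ⟨u, hu, hlim⟩ := mem_closure_iff_seq_limit.1 hw'
    have hD : w ∈ DD (ann N ρ) := by
      have hcl : IsClosed (DD (ann N ρ) : Set (LV N)) := DD_isClosed _
      exact hcl.mem_of_tendsto hlim (Eventually.of_forall fun n => (hu n).1)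
    refine ⟨hD, ?_⟩
    exact axial_lim (ax_ts_pos hN) (fun n => (hu n).2) (fn_meas w)
      (fn_tendsto_eLpNorm hN (fun n => DD_mono (subset_univ _) (hu n).1) hlim)
  · intro hw
    exact Submodule.le_topologicalClosure _ (Submodule.subset_span hw)

/-- invariance under isometries fixing `e`, in particular reflections -/
theorem axial_rot {e : E N} {h : E N → ℝ} (hh : Axial e h) (R : E N ≃ₗᵢ[ℝ] E N) (hR : R e = e) :
    ∀ᵐ x, h (R x) = h x := by
  obtain ⟨k, hk, hx⟩ := hh
  have hmp : MeasurePreserving R (volume : Measure (E N)) volume := R.measurePreserving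
  have h2 : ∀ᵐ x, h (R x) = k (‖R x‖, ⟪R x, e⟫) := hmp.quasiMeasurePreserving.ae hx
  filter_upwards [hx, h2] with x h3 h4
  rw [h3, h4, R.norm_map]
  congr 2
  conv_lhs => rw [← hR]
  exact R.inner_map_map x e

end Pool.Agent.helper13.BN
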