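import Pool.Agent.helper22.BN.AxSp

set_option autoImplicit false

/-!
# MP_94a57f_an, module A7: `C²` functions vanishing on the boundary of the annulus
-/

open MeasureTheory Filter Topology Set Metric
open scoped ContDiff Gradient RealInnerProductSpace ENNReal NNReal

noncomputable section
namespace Pool.Agent.helper13.BN
variable {N : ℕ}

namespace Smooth

/-- the smooth transition is Lipschitz -/
theorem st_lip : ∃ K : ℝ≥0, LipschitzWith K Real.smoothTransition := by
  have hcd : ContDiff ℝ 1 Real.smoothTransition := Real.smoothTransition.contDiff (n := 1)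
  have hc : Continuous (deriv Real.smoothTransition) := hcd.continuous_deriv le_rfl
  have hs : HasCompactSupport (deriv Real.smoothTransition) := by
    apply HasCompactSupport.intro (isCompact_Icc (a := (0 : ℝ)) (b := 1))
    intro x hx
    rw [mem_Icc, not_and_or, not_le, not_le] at hx
    rcases hx with hx | hx
    · have : Real.smoothTransition =ᶠ[𝓝 x] fun _ => 0 := by
        filter_upwards [Iio_mem_nhds hx] with y hy
        exact Real.smoothTransition.zero_of_nonpos (le_of_lt hy)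
      rw [this.deriv_eq]
      simp
    · have : Real.smoothTransition =ᶠ[𝓝 x] fun _ => 1 := by
        filter_upwards [Ioi_mem_nhds hx] with y hy
        exact Real.smoothTransition.one_of_one_le (le_of_lt hy)
      rw [this.deriv_eq]
      simp
  obtain ⟨C, hC⟩ := hs.exists_bound_of_continuous hc
  refine ⟨(max C 0).toNNReal, lipschitzWith_of_nnnorm_deriv_le
    (hcd.differentiable (by simp)) (fun x => ?_)⟩
  rw [← NNReal.coe_le_coe, Real.coe_toNNReal _ (le_max_right _ _)]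
  exact (hC x).trans (le_max_left _ _)

/-- the cut-off function -/
def cut (N : ℕ) (ρ δ : ℝ) (x : E N) : ℝ :=
  Real.smoothTransition ((‖x‖ - ρ) / δ - 1) * Real.smoothTransition ((1 - ‖x‖) / δ - 1)

variable {ρ δ : ℝ}

theorem cut_nonneg (x : E N) : 0 ≤ cut N ρ δ x :=
  mul_nonneg (Real.smoothTransition.nonneg _) (Real.smoothTransition.nonneg _)

theorem cut_le_one (x : E N) : cut N ρ δ x ≤ 1 :=
  mul_le_one₀ (Real.smoothTransition.le_one _) (Real.smoothTransition.nonneg _)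
    (Real.smoothTransition.le_one _)

theorem cut_zero_left (hδ : 0 < δ) {x : E N} (hx : ‖x‖ ≤ ρ + δ) : cut N ρ δ x = 0 := by
  unfold cut
  rw [Real.smoothTransition.zero_of_nonpos, zero_mul]
  rw [sub_nonpos, div_le_one hδ]
  linarith

theorem cut_zero_right (hδ : 0 < δ) {x : E N} (hx : 1 - δ ≤ ‖x‖) : cut N ρ δ x = 0 := by
  unfold cut
  rw [Real.smoothTransition.zero_of_nonpos (x := (1 - ‖x‖) / δ - 1), mul_zero]
  rw [sub_nonpos, div_le_one hδ]
  linarith

theorem cut_one (hδ : 0 < δ) {x : E N} (hx : ρ + 2 * δ ≤ ‖x‖) (hx' : ‖x‖ ≤ 1 - 2 * δ) :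
    cut N ρ δ x = 1 := by
  unfold cut
  rw [Real.smoothTransition.one_of_one_le, Real.smoothTransition.one_of_one_le, mul_one]
  · rw [le_sub_iff_add_le, le_div_iff₀ hδ]
    linarith
  · rw [le_sub_iff_add_le, le_div_iff₀ hδ]
    linarith

theorem cut_lip (hδ : 0 < δ) {K : ℝ≥0} (hK : LipschitzWith K Real.smoothTransition) (x y : E N) :
    |cut N ρ δ x - cut N ρ δ y| ≤ 2 * K / δ * ‖x - y‖ := by
  have h0 : |‖x‖ - ‖y‖| ≤ ‖x - y‖ := abs_norm_sub_norm_le x y
  have h1 : |Real.smoothTransition ((‖x‖ - ρ) / δ - 1) -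
      Real.smoothTransition ((‖y‖ - ρ) / δ - 1)| ≤ K / δ * ‖x - y‖ := by
    have h2 := hK.dist_le_mul ((‖x‖ - ρ) / δ - 1) ((‖y‖ - ρ) / δ - 1)
    rw [Real.dist_eq, Real.dist_eq] at h2
    refine h2.trans ?_
    have h3 : (‖x‖ - ρ) / δ - 1 - ((‖y‖ - ρ) / δ - 1) = (‖x‖ - ‖y‖) / δ := by ring
    rw [h3, abs_div, abs_of_pos hδ]
    calc (K : ℝ) * (|‖x‖ - ‖y‖| / δ) ≤ K * (‖x - y‖ / δ) := by gcongr
      _ = K / δ * ‖x - y‖ := by ring
  have h1' : |Real.smoothTransition ((1 - ‖x‖) / δ - 1) -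
      Real.smoothTransition ((1 - ‖y‖) / δ - 1)| ≤ K / δ * ‖x - y‖ := by
    have h2 := hK.dist_le_mul ((1 - ‖x‖) / δ - 1) ((1 - ‖y‖) / δ - 1)
    rw [Real.dist_eq, Real.dist_eq] at h2
    refine h2.trans ?_
    have h3 : (1 - ‖x‖) / δ - 1 - ((1 - ‖y‖) / δ - 1) = -((‖x‖ - ‖y‖) / δ) := by ring
    rw [h3, abs_neg, abs_div, abs_of_pos hδ]
    calc (K : ℝ) * (|‖x‖ - ‖y‖| / δ) ≤ K * (‖x - y‖ / δ) := by gcongr
      _ = K / δ * ‖x - y‖ := by ring
  unfold cut
  set a := Real.smoothTransition ((‖x‖ - ρ) / δ - 1)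
  set b := Real.smoothTransition ((1 - ‖x‖) / δ - 1) with hb
  set a' := Real.smoothTransition ((‖y‖ - ρ) / δ - 1) with ha'
  set b' := Real.smoothTransition ((1 - ‖y‖) / δ - 1)
  have hb1 : |b| ≤ 1 := by
    rw [abs_of_nonneg (Real.smoothTransition.nonneg _)]
    exact Real.smoothTransition.le_one _
  have ha1 : |a'| ≤ 1 := by
    rw [abs_of_nonneg (Real.smoothTransition.nonneg _)]
    exact Real.smoothTransition.le_one _
  calc |a * b - a' * b'| = |(a - a') * b + a' * (b - b')| := by ring_nf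
    _ ≤ |a - a'| * |b| + |a'| * |b - b'| := by
      refine (abs_add_le _ _).trans ?_
      rw [abs_mul, abs_mul]
    _ ≤ |a - a'| * 1 + 1 * |b - b'| := by gcongr
    _ ≤ K / δ * ‖x - y‖ + K / δ * ‖x - y‖ := by linarith
    _ = 2 * K / δ * ‖x - y‖ := by ring

theorem cut_contDiffAt {x : E N} (hx : x ≠ 0) : ContDiffAt ℝ 2 (cut N ρ δ) x := by
  have h1 : ContDiffAt ℝ 2 (fun y : E N => ‖y‖) x := contDiffAt_norm ℝ hx
  have h2 : ContDiffAt ℝ 2 (fun y : E N => (‖y‖ - ρ) / δ - 1) x :=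
    ((h1.sub contDiffAt_const).div_const _).sub contDiffAt_const
  have h3 : ContDiffAt ℝ 2 (fun y : E N => (1 - ‖y‖) / δ - 1) x :=
    ((contDiffAt_const.sub h1).div_const _).sub contDiffAt_const
  have hs : ∀ t : ℝ, ContDiffAt ℝ 2 Real.smoothTransition t := fun t =>
    Real.smoothTransition.contDiffAt (n := 2)
  exact ((hs _).comp x h2).mul ((hs _).comp x h3)

/-- the approximations -/
def FF (ρ δ : ℝ) (G : E N → ℝ) (x : E N) : ℝ := cut N ρ δ x * G x

theorem FF_zero_left (hδ : 0 < δ) {G : E N → ℝ} {x : E N} (hx : ‖x‖ < ρ + δ) :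
    FF ρ δ G =ᶠ[𝓝 x] fun _ => 0 := by
  have h1 : {y : E N | ‖y‖ < ρ + δ} ∈ 𝓝 x :=
    (isOpen_lt continuous_norm continuous_const).mem_nhds hx
  filter_upwards [h1] with y hy
  rw [FF, cut_zero_left hδ (le_of_lt hy), zero_mul]

theorem FF_zero_right (hδ : 0 < δ) {G : E N → ℝ} {x : E N} (hx : 1 - δ < ‖x‖) :
    FF ρ δ G =ᶠ[𝓝 x] fun _ => 0 := by
  have h1 : {y : E N | 1 - δ < ‖y‖} ∈ 𝓝 x :=
    (isOpen_lt continuous_const continuous_norm).mem_nhds hx
  filter_upwards [h1] with y hy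
  rw [FF, cut_zero_right hδ (le_of_lt hy), zero_mul]

theorem FF_one (hδ : 0 < δ) {G : E N → ℝ} {x : E N} (hx : ρ + 2 * δ < ‖x‖)
    (hx' : ‖x‖ < 1 - 2 * δ) : FF ρ δ G =ᶠ[𝓝 x] G := by
  have h1 : {y : E N | ρ + 2 * δ < ‖y‖} ∈ 𝓝 x :=
    (isOpen_lt continuous_const continuous_norm).mem_nhds hx
  have h2 : {y : E N | ‖y‖ < 1 - 2 * δ} ∈ 𝓝 x :=
    (isOpen_lt continuous_norm continuous_const).mem_nhds hx'
  filter_upwards [h1, h2] with y hy hy'
  rw [FF, cut_one hδ (le_of_lt hy) (le_of_lt hy'), one_mul]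

theorem FF_contDiff (hρ : 0 < ρ) (hδ : 0 < δ) {G : E N → ℝ}
    (hG : ∀ x, x ≠ 0 → ContDiffAt ℝ 2 G x) : ContDiff ℝ 2 (FF ρ δ G) := by
  rw [contDiff_iff_contDiffAt]
  intro x
  by_cases hx : x = 0
  · have h1 : FF ρ δ G =ᶠ[𝓝 x] fun _ => 0 := FF_zero_left hδ (by rw [hx, norm_zero]; linarith)
    exact contDiffAt_const.congr_of_eventuallyEq h1
  · exact (cut_contDiffAt hx).mul (hG x hx)

theorem FF_tsupport (hδ : 0 < δ) {G : E N → ℝ} :
    tsupport (FF ρ δ G) ⊆ {x | ρ + δ ≤ ‖x‖ ∧ ‖x‖ ≤ 1 - δ} := by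
  apply closure_minimal
  · intro x hx
    rw [Function.mem_support] at hx
    refine ⟨?_, ?_⟩
    · by_contra h
      push Not at h
      exact hx (by rw [FF, cut_zero_left hδ h.le, zero_mul])
    · by_contra h
      push Not at h
      exact hx (by rw [FF, cut_zero_right hδ h.le, zero_mul])
  · exact (isClosed_le continuous_const continuous_norm).inter
      (isClosed_le continuous_norm continuous_const)

theorem FF_tsupport_ann (hδ : 0 < δ) {G : E N → ℝ} : tsupport (FF ρ δ G) ⊆ ann N ρ :=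
  (FF_tsupport hδ).trans fun x hx => ⟨by linarith [hx.1], by linarith [hx.2]⟩

theorem FF_compact (hδ : 0 < δ) {G : E N → ℝ} : HasCompactSupport (FF ρ δ G) := by
  apply IsCompact.of_isClosed_subset (isCompact_closedBall (0 : E N) 1) (isClosed_tsupport _)
  refine (FF_tsupport hδ).trans fun x hx => ?_
  rw [mem_closedBall_zero_iff]
  linarith [hx.2]

theorem norm_smul_le_norm {c : ℝ} (hc : 0 ≤ c) (x : E N) : ‖c • x‖ = c * ‖x‖ := by
  rw [norm_smul, Real.norm_of_nonneg hc]

/-- the bound of the gradient on the closed annulus -/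
theorem exists_L (hρ : 0 < ρ) {G : E N → ℝ}
    (hG : ∀ x, x ≠ 0 → ContDiffAt ℝ 2 G x) :
    ∃ L : ℝ, 0 ≤ L ∧ ∀ x : E N, ρ ≤ ‖x‖ → ‖x‖ ≤ 1 → ‖fderiv ℝ G x‖ ≤ L := by
  have hK : IsCompact {x : E N | ρ ≤ ‖x‖ ∧ ‖x‖ ≤ 1} := by
    apply IsCompact.of_isClosed_subset (isCompact_closedBall (0 : E N) 1)
      ((isClosed_le continuous_const continuous_norm).inter
      (isClosed_le continuous_norm continuous_const))
    intro x hx
    rw [mem_closedBall_zero_iff]
    exact hx.2
  have hc : ContinuousOn (fun x => fderiv ℝ G x) {x : E N | ρ ≤ ‖x‖ ∧ ‖x‖ ≤ 1} := by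
    intro x hx
    have hx0 : x ≠ 0 := by
      rintro rfl
      have := hx.1
      rw [norm_zero] at this
      linarith
    have := (hG x hx0).fderiv_right (m := 1) (by norm_num)
    exact this.continuousAt.continuousWithinAt
  obtain ⟨C, hC⟩ := hK.exists_bound_of_continuousOn hc
  exact ⟨max C 0, le_max_right _ _, fun x h1 h2 => (hC x ⟨h1, h2⟩).trans (le_max_left _ _)⟩

theorem G_bound (hρ : 0 < ρ) {G : E N → ℝ}
    (hG : ∀ x, x ≠ 0 → ContDiffAt ℝ 2 G x) {L : ℝ}
    (hL : ∀ x : E N, ρ ≤ ‖x‖ → ‖x‖ ≤ 1 → ‖fderiv ℝ G x‖ ≤ L)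
    {r : ℝ} (hr : ρ ≤ r) (hr1 : r ≤ 1) (hz : ∀ x, ‖x‖ = r → G x = 0) {x : E N}
    (hx : ρ ≤ ‖x‖) (hx1 : ‖x‖ ≤ 1) : |G x| ≤ L * |‖x‖ - r| := by
  have hx0 : 0 < ‖x‖ := by linarith
  have hr0 : 0 < r := by linarith
  set y : E N := (r / ‖x‖) • x with hy
  have hyn : ‖y‖ = r := by
    rw [hy, norm_smul_le_norm (by positivity)]
    field_simp
  have hseg : ∀ z ∈ segment ℝ y x, ρ ≤ ‖z‖ ∧ ‖z‖ ≤ 1 := by
    rintro z ⟨a, b, ha, hb, hab, rfl⟩
    have h1 : a • y + b • x = (a * (r / ‖x‖) + b) • x := by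
      rw [hy, smul_smul, ← add_smul]
    have h2 : 0 ≤ a * (r / ‖x‖) + b := by positivity
    rw [h1, norm_smul_le_norm h2]
    have h3 : (a * (r / ‖x‖) + b) * ‖x‖ = a * r + b * ‖x‖ := by
      field_simp
    rw [h3]
    constructor <;> nlinarith
  have hd : ∀ z ∈ segment ℝ y x, DifferentiableAt ℝ G z := by
    intro z hz'
    have hz0 : z ≠ 0 := by
      rintro rfl
      have := (hseg 0 hz').1
      rw [norm_zero] at this
      linarith
    exact (hG z hz0).differentiableAt (by simp)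
  have h4 := (convex_segment y x).norm_image_sub_le_of_norm_fderiv_le hd
    (fun z hz' => hL z (hseg z hz').1 (hseg z hz').2) (left_mem_segment ℝ y x)
    (right_mem_segment ℝ y x)
  rw [hz y hyn, sub_zero, Real.norm_eq_abs] at h4
  refine h4.trans (le_of_eq ?_)
  have h5 : x - y = (1 - r / ‖x‖) • x := by rw [hy, sub_smul, one_smul]
  rw [h5, norm_smul, Real.norm_eq_abs, ← abs_of_pos hx0, ← abs_mul, abs_of_pos hx0]
  congr 2
  field_simp

/-- the uniform bound of the gradients of the approximations -/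
theorem FF_bound (hρ : 0 < ρ) (hρ1 : ρ < 1) {G : E N → ℝ}
    (hG : ∀ x, x ≠ 0 → ContDiffAt ℝ 2 G x) (h1 : ∀ x, ‖x‖ = 1 → G x = 0)
    (h2 : ∀ x, ‖x‖ = ρ → G x = 0) :
    ∃ C : ℝ, 0 ≤ C ∧ (∀ x ∈ ann N ρ, ‖fderiv ℝ G x‖ ≤ C) ∧
      ∀ δ : ℝ, 0 < δ → ∀ x, ‖fderiv ℝ (FF ρ δ G) x‖ ≤ (ann N ρ).indicator (fun _ => C) x := by
  obtain ⟨L, hL0, hL⟩ := exists_L (N := N) hρ hG
  obtain ⟨K, hK⟩ := st_lip
  refine ⟨L + 4 * K * L, by positivity, fun x hx => ?_, fun δ hδ x => ?_⟩
  · have := hL x hx.1.le hx.2.le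
    have : 0 ≤ 4 * K * L := by positivity
    linarith
  by_cases hx : x ∈ ann N ρ
  · rw [indicator_of_mem hx]
    obtain ⟨hx1, hx2⟩ := hx
    have hx0 : x ≠ 0 := by
      rintro rfl
      rw [norm_zero] at hx1
      linarith
    have hfd : fderiv ℝ (FF ρ δ G) x = cut N ρ δ x • fderiv ℝ G x + G x • fderiv ℝ (cut N ρ δ) x :=
      fderiv_mul ((cut_contDiffAt hx0).differentiableAt (by simp))
        ((hG x hx0).differentiableAt (by simp))
    have hpos : 0 ≤ 2 * (K : ℝ) / δ := by positivity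
    have hcl : LipschitzWith (2 * (K : ℝ) / δ).toNNReal (cut N ρ δ) := by
      apply LipschitzWith.of_dist_le_mul
      intro y z
      rw [Real.dist_eq, dist_eq_norm, Real.coe_toNNReal _ hpos]
      exact cut_lip (N := N) (ρ := ρ) hδ hK y z
    have hcn : ‖fderiv ℝ (cut N ρ δ) x‖ ≤ 2 * K / δ := by
      have := norm_fderiv_le_of_lipschitz ℝ hcl (x₀ := x)
      rwa [Real.coe_toNNReal _ hpos] at this
    have hmain : |G x| * ‖fderiv ℝ (cut N ρ δ) x‖ ≤ 4 * K * L := by
      have aux : |G x| ≤ L * (2 * δ) → |G x| * ‖fderiv ℝ (cut N ρ δ) x‖ ≤ 4 * K * L := by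
        intro h
        calc |G x| * ‖fderiv ℝ (cut N ρ δ) x‖ ≤ (L * (2 * δ)) * (2 * K / δ) := by gcongr
          _ = 4 * K * L := by
            field_simp
            ring
      by_cases h3 : ‖x‖ ≤ ρ + 2 * δ
      · apply aux
        refine (G_bound hρ hG hL le_rfl hρ1.le h2 hx1.le hx2.le).trans ?_
        rw [abs_of_pos (by linarith)]
        gcongr
        linarith
      by_cases h4 : 1 - 2 * δ ≤ ‖x‖
      · apply aux
        refine (G_bound hρ hG hL hρ1.le le_rfl h1 hx1.le hx2.le).trans ?_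
        rw [abs_of_neg (by linarith)]
        gcongr
        linarith
      push Not at h3 h4
      have h5 : cut N ρ δ =ᶠ[𝓝 x] fun _ => 1 := by
        have h1 : {y : E N | ρ + 2 * δ < ‖y‖} ∈ 𝓝 x :=
          (isOpen_lt continuous_const continuous_norm).mem_nhds h3
        have h2 : {y : E N | ‖y‖ < 1 - 2 * δ} ∈ 𝓝 x :=
          (isOpen_lt continuous_norm continuous_const).mem_nhds h4
        filter_upwards [h1, h2] with y hy hy'
        exact cut_one hδ (le_of_lt hy) (le_of_lt hy')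
      rw [h5.fderiv_eq]
      simp
      positivity
    rw [hfd]
    calc ‖cut N ρ δ x • fderiv ℝ G x + G x • fderiv ℝ (cut N ρ δ) x‖
        ≤ |cut N ρ δ x| * ‖fderiv ℝ G x‖ + |G x| * ‖fderiv ℝ (cut N ρ δ) x‖ := by
          refine (norm_add_le _ _).trans ?_
          rw [norm_smul, norm_smul, Real.norm_eq_abs, Real.norm_eq_abs]
      _ ≤ 1 * L + 4 * K * L := by
          gcongr
          · rw [abs_of_nonneg (cut_nonneg x)]
            exact cut_le_one x
          · exact hL x hx1.le hx2.le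
      _ = L + 4 * K * L := by ring
  · rw [indicator_of_notMem hx]
    have hz : FF ρ δ G =ᶠ[𝓝 x] fun _ => 0 := by
      rw [ann, Set.mem_ofPred_eq, not_and_or, not_lt, not_lt] at hx
      rcases hx with hx | hx
      · exact FF_zero_left hδ (by linarith)
      · exact FF_zero_right hδ (by linarith)
    rw [hz.fderiv_eq]
    simp

theorem ann_open (N : ℕ) (ρ : ℝ) : IsOpen (ann N ρ) :=
  (isOpen_lt continuous_const continuous_norm).inter (isOpen_lt continuous_norm continuous_const)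

theorem ann_meas (N : ℕ) (ρ : ℝ) : MeasurableSet (ann N ρ) := (ann_open N ρ).measurableSet

theorem ann_finite (N : ℕ) (ρ : ℝ) : volume (ann N ρ) ≠ ⊤ := by
  have h1 : ann N ρ ⊆ closedBall (0 : E N) 1 := by
    intro x hx
    rw [mem_closedBall_zero_iff]
    exact hx.2.le
  exact ((measure_mono h1).trans_lt measure_closedBall_lt_top).ne

/-- pointwise convergence of the gradients -/
theorem FF_lim {G : E N → ℝ} (x : E N) :
    Tendsto (fun n : ℕ => ∇ (FF ρ (1 / ((n : ℝ) + 1)) G) x) atTop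
      (𝓝 ((ann N ρ).indicator (fun x => ∇ G x) x)) := by
  have hpos : ∀ n : ℕ, 0 < 1 / ((n : ℝ) + 1) := fun n => by positivity
  by_cases hx : x ∈ ann N ρ
  · rw [indicator_of_mem hx]
    obtain ⟨hx1, hx2⟩ := hx
    have h0 : Tendsto (fun n : ℕ => 2 * (1 / ((n : ℝ) + 1))) atTop (𝓝 0) := by
      have := (tendsto_one_div_add_atTop_nhds_zero_nat (𝕜 := ℝ)).const_mul 2
      simpa using this
    have e1 : ∀ᶠ n : ℕ in atTop, 2 * (1 / ((n : ℝ) + 1)) < ‖x‖ - ρ :=
      h0.eventually (gt_mem_nhds (by linarith))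
    have e2 : ∀ᶠ n : ℕ in atTop, 2 * (1 / ((n : ℝ) + 1)) < 1 - ‖x‖ :=
      h0.eventually (gt_mem_nhds (by linarith))
    apply tendsto_const_nhds.congr'
    filter_upwards [e1, e2] with n h1 h2
    have h3 := FF_one (G := G) (ρ := ρ) (x := x) (hpos n) (by linarith) (by linarith)
    rw [grad_def, grad_def, h3.fderiv_eq]
  · rw [indicator_of_notMem hx]
    apply tendsto_const_nhds.congr'
    filter_upwards with n
    have hz : FF ρ (1 / ((n : ℝ) + 1)) G =ᶠ[𝓝 x] fun _ => 0 := by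
      rw [ann, Set.mem_ofPred_eq, not_and_or, not_lt, not_lt] at hx
      rcases hx with hx | hx
      · exact FF_zero_left (hpos n) (by linarith [hpos n])
      · exact FF_zero_right (hpos n) (by linarith [hpos n])
    rw [grad_def, hz.fderiv_eq]
    simp

/-- pointwise convergence of the functions -/
theorem FF_lim0 {G : E N → ℝ} (x : E N) :
    Tendsto (fun n : ℕ => FF ρ (1 / ((n : ℝ) + 1)) G x) atTop
      (𝓝 ((ann N ρ).indicator G x)) := by
  have hpos : ∀ n : ℕ, 0 < 1 / ((n : ℝ) + 1) := fun n => by positivity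
  by_cases hx : x ∈ ann N ρ
  · rw [indicator_of_mem hx]
    obtain ⟨hx1, hx2⟩ := hx
    have h0 : Tendsto (fun n : ℕ => 2 * (1 / ((n : ℝ) + 1))) atTop (𝓝 0) := by
      have := (tendsto_one_div_add_atTop_nhds_zero_nat (𝕜 := ℝ)).const_mul 2
      simpa using this
    have e1 : ∀ᶠ n : ℕ in atTop, 2 * (1 / ((n : ℝ) + 1)) < ‖x‖ - ρ :=
      h0.eventually (gt_mem_nhds (by linarith))
    have e2 : ∀ᶠ n : ℕ in atTop, 2 * (1 / ((n : ℝ) + 1)) < 1 - ‖x‖ :=
      h0.eventually (gt_mem_nhds (by linarith))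
    apply tendsto_const_nhds.congr'
    filter_upwards [e1, e2] with n h1 h2
    exact (FF_one (G := G) (ρ := ρ) (x := x) (hpos n) (by linarith) (by linarith)).self_of_nhds.symm
  · rw [indicator_of_notMem hx]
    apply tendsto_const_nhds.congr'
    filter_upwards with n
    have hz : FF ρ (1 / ((n : ℝ) + 1)) G =ᶠ[𝓝 x] fun _ => 0 := by
      rw [ann, Set.mem_ofPred_eq, not_and_or, not_lt, not_lt] at hx
      rcases hx with hx | hx
      · exact FF_zero_left (hpos n) (by linarith [hpos n])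
      · exact FF_zero_right (hpos n) (by linarith [hpos n])
    exact hz.self_of_nhds.symm

theorem norm_grad (φ : E N → ℝ) (x : E N) : ‖∇ φ x‖ = ‖fderiv ℝ φ x‖ := by
  rw [grad_def, LinearIsometryEquiv.norm_map]

/-- dominated convergence in `L²` -/
theorem tendsto_eLpNorm_dom {f : ℕ → E N → E N} {g : E N → E N} {b : E N → ℝ}
    (hb : MemLp b 2 volume) (hf : ∀ n, AEStronglyMeasurable (f n) volume)
    (hfb : ∀ n x, ‖f n x‖ ≤ b x)
    (hlim : ∀ x, Tendsto (fun n => f n x) atTop (𝓝 (g x))) :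
    MemLp g 2 volume ∧ Tendsto (fun n => eLpNorm (f n - g) 2 volume) atTop (𝓝 0) := by
  have hgm : AEStronglyMeasurable g volume :=
    aestronglyMeasurable_of_tendsto_ae atTop hf (Eventually.of_forall hlim)
  have hgb : ∀ x, ‖g x‖ ≤ b x := fun x =>
    le_of_tendsto (hlim x).norm (Eventually.of_forall fun n => hfb n x)
  refine ⟨hb.mono' hgm (Eventually.of_forall hgb), ?_⟩
  have hb2 : MemLp (fun x => 2 * b x) 2 volume := hb.const_mul 2
  have hsub : ∀ n x, ‖f n x - g x‖ ≤ 2 * b x := fun n x =>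
    (norm_sub_le _ _).trans (by linarith [hfb n x, hgb x])
  have key : Tendsto (fun n => ∫⁻ x, ‖f n x - g x‖ₑ ^ (2 : ℝ)) atTop
      (𝓝 (∫⁻ _ : E N, (0 : ℝ≥0∞))) := by
    apply tendsto_lintegral_of_dominated_convergence' (fun x => ‖2 * b x‖ₑ ^ (2 : ℝ))
    · intro n
      exact ((hf n).sub hgm).enorm.pow_const _
    · intro n
      filter_upwards with x
      gcongr
      rw [enorm_le_iff_norm_le]
      exact (hsub n x).trans (le_abs_self _)
    · have := hb2.eLpNorm_lt_top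
      rw [eLpNorm_lt_top_iff_lintegral_rpow_enorm_lt_top (by simp) (by simp)] at this
      simpa using this.ne
    · filter_upwards with x
      have h1 : Tendsto (fun n => ‖f n x - g x‖ₑ) atTop (𝓝 0) := by
        have h2 : Tendsto (fun n => f n x - g x) atTop (𝓝 0) := by
          have := (hlim x).sub_const (g x)
          simpa using this
        have := h2.enorm
        simpa using this
      have := (ENNReal.continuous_rpow_const (y := 2)).tendsto 0 |>.comp h1
      simpa [Function.comp_def] using this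
  have h2 : ∀ n, eLpNorm (f n - g) 2 volume = (∫⁻ x, ‖f n x - g x‖ₑ ^ (2 : ℝ)) ^ (1 / 2 : ℝ) := by
    intro n
    rw [eLpNorm_eq_lintegral_rpow_enorm_toReal (by simp) (by simp)]
    simp
  simp_rw [h2]
  have h3 := (ENNReal.continuous_rpow_const (y := (1 / 2 : ℝ))).tendsto
    (∫⁻ _ : E N, (0 : ℝ≥0∞)) |>.comp key
  simpa [Function.comp_def] using h3

/-- integration by parts against a test function -/
theorem ibp_test {G φ : E N → ℝ} (hG : ∀ x ∈ tsupport φ, ContDiffAt ℝ 2 G x)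
    (hφ : ContDiff ℝ ∞ φ) (hs : HasCompactSupport φ) :
    ∫ x, ⟪∇ G x, ∇ φ x⟫ = ∫ x, (- lap G x) * φ x := by
  have hφ1 : ContDiff ℝ 1 φ := hφ.of_le (by simp)
  -- continuity of products
  have hcont : ∀ (a b : E N → ℝ), (∀ x ∈ tsupport φ, ContinuousAt a x) → Continuous b →
      tsupport b ⊆ tsupport φ → Integrable (fun x => a x * b x) := by
    intro a b ha hb hsub
    have hbs : HasCompactSupport b := hs.of_isClosed_subset (isClosed_tsupport _) hsub
    have hc : Continuous (fun x => a x * b x) := by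
      rw [continuous_iff_continuousAt]
      intro x
      by_cases hx : x ∈ tsupport b
      · exact (ha x (hsub hx)).mul hb.continuousAt
      · have h1 : b =ᶠ[𝓝 x] 0 := notMem_tsupport_iff_eventuallyEq.1 hx
        have h2 : (fun x => a x * b x) =ᶠ[𝓝 x] fun _ => 0 := by
          filter_upwards [h1] with y hy
          rw [hy]
          simp
        exact continuousAt_const.congr h2.symm
    exact hc.integrable_of_hasCompactSupport hbs.mul_left
  have hd1 : ∀ x ∈ tsupport φ, ContDiffAt ℝ 1 (fderiv ℝ G) x := fun x hx =>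
    (hG x hx).fderiv_right (by norm_num)
  have hd1v : ∀ (v : E N), ∀ x ∈ tsupport φ, ContDiffAt ℝ 1 (fun y => fderiv ℝ G y v) x :=
    fun v x hx => (hd1 x hx).clm_apply contDiffAt_const
  have hd2v : ∀ (v : E N), ∀ x ∈ tsupport φ,
      ContinuousAt (fun z => fderiv ℝ (fun y => fderiv ℝ G y v) z v) x := by
    intro v x hx
    have h1 : ContDiffAt ℝ 0 (fderiv ℝ (fun y => fderiv ℝ G y v)) x :=
      (hd1v v x hx).fderiv_right (by norm_num)
    exact h1.continuousAt.clm_apply continuousAt_const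
  have hφv : ∀ v : E N, Continuous (fun x => fderiv ℝ φ x v) := fun v =>
    (hφ1.continuous_fderiv (by simp)).clm_apply continuous_const
  have hφvs : ∀ v : E N, tsupport (fun x => fderiv ℝ φ x v) ⊆ tsupport φ := fun v =>
    tsupport_fderiv_apply_subset ℝ v
  have hφd : Differentiable ℝ φ := hφ1.differentiable (by simp)
  have hparts : ∀ v : E N, ∫ x, fderiv ℝ G x v * fderiv ℝ φ x v =
      - ∫ x, fderiv ℝ (fun y => fderiv ℝ G y v) x v * φ x := by
    intro v
    apply integral_mul_fderiv_eq_neg_fderiv_mul_of_integrable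
    · exact hcont _ _ (hd2v v) hφ.continuous subset_rfl
    · exact hcont _ _ (fun x hx => (hd1v v x hx).continuousAt) (hφv v) (hφvs v)
    · exact hcont _ _ (fun x hx => (hd1v v x hx).continuousAt) hφ.continuous subset_rfl
    · exact fun x hx => (hd1v v x hx).differentiableAt (by simp)
    · exact fun x _ => hφd x
  have hinner : ∀ x, ⟪∇ G x, ∇ φ x⟫ = ∑ i : Fin N, fderiv ℝ G x (EuclideanSpace.single i 1) *
      fderiv ℝ φ x (EuclideanSpace.single i 1) := by
    intro x
    rw [← (EuclideanSpace.basisFun (Fin N) ℝ).sum_inner_mul_inner]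
    refine Finset.sum_congr rfl fun i _ => ?_
    rw [grad_def, grad_def, InnerProductSpace.toDual_symm_apply, real_inner_comm,
      InnerProductSpace.toDual_symm_apply, EuclideanSpace.basisFun_apply]
  simp_rw [hinner]
  rw [integral_finsetSum]
  · simp_rw [hparts]
    rw [Finset.sum_neg_distrib, ← integral_finsetSum]
    · rw [← integral_neg]
      refine integral_congr_ae (Eventually.of_forall fun x => ?_)
      simp only [lap]
      rw [neg_mul, Finset.sum_mul]
    · intro i _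
      exact hcont _ _ (hd2v _) hφ.continuous subset_rfl
  · intro i _
    exact hcont _ _ (fun x hx => (hd1v _ x hx).continuousAt) (hφv _) (hφvs _)

end Smooth

open Smooth in
/-- `C²` functions vanishing on the boundary of the annulus -/
theorem weak_C2 (hN : 3 ≤ N) {ρ : ℝ} (hρ : 0 < ρ) (hρ1 : ρ < 1) {G : E N → ℝ}
    (hG : ∀ x, x ≠ 0 → ContDiffAt ℝ 2 G x) (h1 : ∀ x, ‖x‖ = 1 → G x = 0)
    (h2 : ∀ x, ‖x‖ = ρ → G x = 0) :
    ∃ w : LV N, Weak (ann N ρ) w (fun x => - lap G x) ∧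
      fn w =ᵐ[volume] (ann N ρ).indicator G ∧
      (w : E N → E N) =ᵐ[volume] (ann N ρ).indicator (fun x => ∇ G x) := by
  have hpos : ∀ n : ℕ, 0 < 1 / ((n : ℝ) + 1) := fun n => by positivity
  obtain ⟨C, hC0, hCG, hC⟩ := FF_bound (N := N) hρ hρ1 hG h1 h2
  have hcd : ∀ n : ℕ, ContDiff ℝ 1 (FF ρ (1 / ((n : ℝ) + 1)) G) := fun n =>
    (FF_contDiff hρ (hpos n) hG).of_le (by norm_num)
  have hcs : ∀ n : ℕ, HasCompactSupport (FF ρ (1 / ((n : ℝ) + 1)) G) := fun n =>
    FF_compact (hpos n)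
  choose W hW using fun n : ℕ => exists_isGrad (hcd n) (hcs n)
  have hD : ∀ n, W n ∈ DD (ann N ρ) ∧ fn (W n) =ᵐ[volume] FF ρ (1 / ((n : ℝ) + 1)) G :=
    fun n => mem_DD_C1 hN (ann_open N ρ) (hcd n) (hcs n) (FF_tsupport_ann (hpos n)) (hW n)
  have hgm : ∀ n : ℕ, AEStronglyMeasurable (fun x => ∇ (FF ρ (1 / ((n : ℝ) + 1)) G) x) volume :=
    fun n => (Lp.aestronglyMeasurable (W n)).congr (hW n)
  have hb : MemLp ((ann N ρ).indicator (fun _ => C)) 2 (volume : Measure (E N)) :=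
    memLp_indicator_const 2 (ann_meas N ρ) C (Or.inr (ann_finite N ρ))
  obtain ⟨hmem, hlim⟩ := tendsto_eLpNorm_dom hb hgm
    (fun n x => by rw [norm_grad]; exact hC _ (hpos n) x) (fun x => FF_lim x)
  set w : LV N := hmem.toLp _ with hw
  have hwae : (w : E N → E N) =ᵐ[volume] (ann N ρ).indicator (fun x => ∇ G x) := hmem.coeFn_toLp
  have hWlim : Tendsto W atTop (𝓝 w) := by
    rw [Lp.tendsto_Lp_iff_tendsto_eLpNorm']
    refine hlim.congr fun n => ?_
    apply eLpNorm_congr_ae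
    filter_upwards [hW n, hwae] with x hx1 hx2
    simp only [Pi.sub_apply]
    rw [hx1, hx2]
  have hwD : w ∈ DD (ann N ρ) :=
    (DD_isClosed (ann N ρ)).mem_of_tendsto hWlim (Eventually.of_forall fun n => (hD n).1)
  refine ⟨w, ⟨hwD, ?_⟩, ?_, hwae⟩
  · intro φ V hφ hV
    rw [← ibp_test (fun x hx => hG x ?_) hφ.1 hφ.2.1]
    · rw [L2.inner_def]
      refine integral_congr_ae ?_
      filter_upwards [hwae, hV] with x hx1 hx2
      rw [hx1, hx2]
      by_cases hx : x ∈ ann N ρ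
      · rw [indicator_of_mem hx]
      · have h0 : x ∉ tsupport φ := fun h => hx (hφ.2.2 h)
        have h3 : φ =ᶠ[𝓝 x] 0 := notMem_tsupport_iff_eventuallyEq.1 h0
        have h4 : ∇ φ x = 0 := by
          rw [grad_def, h3.fderiv_eq]
          simp
        rw [h4]
        simp
    · rintro rfl
      have := (hφ.2.2 hx).1
      rw [norm_zero] at this
      linarith
  · have h5 := fn_tendsto_eLpNorm hN (fun n => DD_mono (subset_univ _) (hD n).1) hWlim
    have h6 : TendstoInMeasure volume (fun n => fn (W n)) atTop (fn w) :=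
      tendstoInMeasure_of_tendsto_eLpNorm (by simpa using ax_ts_pos hN) (fun n => fn_meas _)
        (fn_meas _) h5
    obtain ⟨ns, hns, h7⟩ := h6.exists_seq_tendsto_ae
    filter_upwards [h7, ae_all_iff.2 fun n => (hD n).2] with x hx1 hx2
    have h8 : Tendsto (fun i => fn (W (ns i)) x) atTop (𝓝 ((ann N ρ).indicator G x)) := by
      refine ((FF_lim0 (ρ := ρ) (G := G) x).comp hns.tendsto_atTop).congr fun i => ?_
      simp only [Function.comp_apply]
      rw [hx2]
    exact tendsto_nhds_unique hx1 h8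

end Pool.Agent.helper13.BN
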